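import Pool.Agent.K3h46.HP.Stm4

/-!
# The composition of correspondences is associative (brick ASSOC)
-/

set_option autoImplicit false

open Finset

namespace Pool.Agent.K3h66.HP

open Pool.Agent.K3h46.HP

theorem comp_eq (X : Powers) (a b : X.A 2) :
    X.comp a b = X.push 2 (X.edge a 0 2 * X.edge b 2 1) := rfl

theorem pull_comp_edge (X : Powers) (a b : X.A 2) {n : ℕ} (i j : Fin n) :
    X.edge (X.comp a b) i j = X.push n (X.edge a i.castSucc (Fin.last n) *
      X.edge b (Fin.last n) j.castSucc) := by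
  have h1 : X.edge (X.comp a b) i j =
      X.push n (X.pull (extend ![i, j]) (X.edge a 0 2 * X.edge b 2 1)) := by
    rw [X.base_change]
    rfl
  rw [h1, map_mul, pull_edge, pull_edge]
  rfl

theorem t_Assoc : StmAssoc := by
  intro X hF a b c
  rw [comp_eq X (X.comp a b) c, comp_eq X a (X.comp b c), pull_comp_edge, pull_comp_edge,
    ← X.projection, mul_comm (X.push 3 _), ← X.projection]
  have h := hF 2 (X.pull Fin.castSucc (X.edge a 0 2 : X.A 3) *
    (X.edge b (Fin.castSucc 2) (Fin.last 3) * X.edge c (Fin.last 3) (Fin.castSucc 1)))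
  have key : X.pull (Equiv.swap (Fin.last (2 + 1)) (Fin.last 2).castSucc)
      (X.pull Fin.castSucc (X.edge a 0 2 : X.A 3) *
        (X.edge b (Fin.castSucc 2) (Fin.last 3) * X.edge c (Fin.last 3) (Fin.castSucc 1))) =
      X.pull Fin.castSucc (X.edge c 2 1 : X.A 3) *
        (X.edge a (Fin.castSucc 0) (Fin.last 3) * X.edge b (Fin.last 3) (Fin.castSucc 2)) := by
    have s0 : (Equiv.swap (Fin.last 3) (Fin.last 2).castSucc) (0 : Fin 4) = 0 := by decide
    have s1 : (Equiv.swap (Fin.last 3) (Fin.last 2).castSucc) (1 : Fin 4) = 1 := by decide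
    have s2 : (Equiv.swap (Fin.last 3) (Fin.last 2).castSucc) (2 : Fin 4) = 3 := by decide
    have s3 : (Equiv.swap (Fin.last 3) (Fin.last 2).castSucc) (3 : Fin 4) = 2 := by decide
    rw [map_mul, map_mul, pull_edge, pull_edge, pull_edge, pull_edge, pull_edge]
    change X.edge a ((Equiv.swap (Fin.last 3) (Fin.last 2).castSucc) (0 : Fin 4))
        ((Equiv.swap (Fin.last 3) (Fin.last 2).castSucc) (2 : Fin 4)) *
      (X.edge b ((Equiv.swap (Fin.last 3) (Fin.last 2).castSucc) (2 : Fin 4))
        ((Equiv.swap (Fin.last 3) (Fin.last 2).castSucc) (3 : Fin 4)) *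
      X.edge c ((Equiv.swap (Fin.last 3) (Fin.last 2).castSucc) (3 : Fin 4))
        ((Equiv.swap (Fin.last 3) (Fin.last 2).castSucc) (1 : Fin 4))) =
      X.edge c (2 : Fin 4) 1 * (X.edge a (0 : Fin 4) 3 * X.edge b (3 : Fin 4) 2)
    rw [s0, s1, s2, s3]
    ring
  rw [key] at h
  exact h

end Pool.Agent.K3h66.HP
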